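import Pool.Agent.K3h2.LT.Stm

/-!
# The smoothing estimate (brick SMO of helper2, written by helper99)
-/

set_option autoImplicit false

namespace Pool.Agent.K3h99.LT

open Pool.Agent.K3h2.LT Filter Topology

theorem t_SMO : S_ENE → S_SMO := by
  intro hENE C L s lam hO
  have hO0 : Orb0 s lam := hO.toOrb0
  have hs0 := hO0.nonneg
  have hs1 : ∀ n k, s n k ≤ 1 := by
    intro n k
    have h := le_hasSum (hO0.cube n) k (fun j _ => pow_nonneg (hs0 n j) 3)
    exact (pow_le_one_iff_of_nonneg (hs0 n k) (by norm_num)).1 h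
  have hl0 : 0 < lam 0 := hO0.pos 0
  have hl : ∀ n, lam 0 ≤ lam n := fun n => hO.mono (Nat.zero_le n)
  obtain ⟨M, hM⟩ : ∃ M, M = Real.sqrt (9 / lam 0) := ⟨_, rfl⟩
  have hM0 : 0 ≤ M := by rw [hM]; exact Real.sqrt_nonneg _
  have hM2 : M ^ 2 = 9 / lam 0 := by rw [hM]; exact Real.sq_sqrt (by positivity)
  refine ⟨(3 * M + 2) / lam 0, by positivity, fun n k => ?_⟩
  obtain ⟨D, hD⟩ : ∃ D, D = lam (n + 2) - lam n := ⟨_, rfl⟩
  have hD0 : 0 ≤ D := by rw [hD]; exact sub_nonneg.2 (hO.mono (by omega))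
  have hD3 : D ≤ 3 := by
    have h1 := hO.le3 (n + 2)
    have h2 := hO0.pos n
    rw [hD]
    linarith
  rw [← hD]
  obtain ⟨r, hr⟩ : ∃ r, r = Real.sqrt D := ⟨_, rfl⟩
  have hr0 : 0 ≤ r := by rw [hr]; exact Real.sqrt_nonneg _
  have hr2 : r ^ 2 = D := by rw [hr]; exact Real.sq_sqrt hD0
  rw [← hr]
  have hDr : D ≤ 2 * r := by
    have h1 : r ≤ 2 := by
      by_contra h
      push Not at h
      nlinarith
    nlinarith
  have key : ∀ j, |s (n + 2) j ^ 2 - s n j ^ 2| ≤ M * r := by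
    intro j
    have ha0 := hs0 (n + 2) j
    have hb0 := hs0 n j
    have ha1 := hs1 (n + 2) j
    have hb1 := hs1 n j
    have h1 : (s (n + 2) j - s n j) ^ 2 * (s (n + 2) j + 2 * s n j) ≤
        3 * (lam (n + 1) - lam n) / lam (n + 1) :=
      le_hasSum (hENE s lam hO0 n).2.2 j (fun i _ => mul_nonneg (sq_nonneg _) (by
        have h1 := hs0 (n + 2) i
        have h2 := hs0 n i
        linarith))
    have h2 : 3 * (lam (n + 1) - lam n) / lam (n + 1) ≤ 3 * D / lam 0 := by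
      have h3 : lam (n + 1) ≤ lam (n + 2) := hO.mono (by omega)
      exact div_le_div₀ (by positivity) (by rw [hD]; linarith) hl0 (hl _)
    apply abs_le_of_sq_le_sq _ (mul_nonneg hM0 hr0)
    rw [mul_pow, hM2, hr2]
    generalize s (n + 2) j = a at *
    generalize s n j = b at *
    have h4 : (a ^ 2 - b ^ 2) ^ 2 ≤ (a - b) ^ 2 * (a + 2 * b) * 3 := by
      have h5 : (a ^ 2 - b ^ 2) ^ 2 = (a - b) ^ 2 * (a + b) ^ 2 := by ring
      have h6 : (a + b) ^ 2 ≤ (a + 2 * b) * 3 := by nlinarith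
      rw [h5, mul_assoc]
      exact mul_le_mul_of_nonneg_left h6 (sq_nonneg _)
    calc (a ^ 2 - b ^ 2) ^ 2 ≤ (a - b) ^ 2 * (a + 2 * b) * 3 := h4
      _ ≤ 3 * D / lam 0 * 3 := by linarith
      _ = 9 / lam 0 * D := by ring
  have e1 := hO0.step (n + 2) k
  have e2 := hO0.step n k
  have k1 := abs_le.1 (key (k - 1))
  have k2 := abs_le.1 (key k)
  have k3 := abs_le.1 (key (k + 1))
  have hy0 := hs0 (n + 1) k
  have hy1 := hs1 (n + 1) k
  have hp : 0 < lam (n + 2) := hO0.pos _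
  have e3 : lam (n + 2) * (s (n + 3) k - s (n + 1) k) =
      (s (n + 2) (k - 1) ^ 2 - s n (k - 1) ^ 2) + (s (n + 2) k ^ 2 - s n k ^ 2) +
        (s (n + 2) (k + 1) ^ 2 - s n (k + 1) ^ 2) - D * s (n + 1) k := by
    rw [hD]
    have e1' : lam (n + 2) * s (n + 3) k = s (n + 2) (k - 1) ^ 2 + s (n + 2) k ^ 2 +
      s (n + 2) (k + 1) ^ 2 := e1
    linear_combination e1' - e2
  have hDy0 : 0 ≤ D * s (n + 1) k := mul_nonneg hD0 hy0
  have hDy1 : D * s (n + 1) k ≤ D := by nlinarith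
  have e4 : |lam (n + 2) * (s (n + 3) k - s (n + 1) k)| ≤ (3 * M + 2) * r := by
    rw [e3, abs_le]
    constructor <;> nlinarith [mul_nonneg hM0 hr0]
  rw [abs_mul, abs_of_pos hp] at e4
  have e5 : lam 0 * |s (n + 3) k - s (n + 1) k| ≤ (3 * M + 2) * r :=
    (mul_le_mul_of_nonneg_right (hl _) (abs_nonneg _)).trans e4
  rw [div_mul_eq_mul_div, le_div_iff₀ hl0, mul_comm]
  exact e5

end Pool.Agent.K3h99.LT
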